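import Pool.Agent.Helper20.RL.St1

/-!
# Project RL (MP_cb927e_an), module LTY: at least half of the points are typical
-/

set_option autoImplicit false

open MeasureTheory Set Filter Topology
open scoped ENNReal RealInnerProductSpace

namespace Pool.Agent.Helper92.RL

open Pool.Agent.Helper68.LM (Pl BB Bd Av HL ft fm DQ)
open Pool.Agent.Helper20.RG Pool.Agent.Helper20.RL

/-- one width -/
theorem lty_one (hLGR : StLGR) (hLMX : StLMX) (hLFM : StLFM) (F : Set Pl) (s θ : ℝ) (V : Set Pl)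
    (A B : Pl → ℤ) (β : ℤ) (hF : MeasurableSet F) (hfin : volume F ≠ ∞) (hθ : 0 < θ)
    (hV : Fml F s θ V A B) (hB : ∀ z ∈ V, B z = β) :
    volume {z | z ∈ F ∧ z ∈ V ∧ z ∉ Ty F s θ V A B} ≤ ENNReal.ofReal (1 / 2) * volume (F ∩ V) := by
  obtain ⟨hcell, hsame, hnest, -, -⟩ := hLGR
  obtain ⟨hR, hM⟩ := hLFM
  -- bound for `A`
  obtain ⟨n, hn⟩ := pow_unbounded_of_one_lt ((volume F).toReal / θ) (one_lt_two (α := ℝ))
  have hA : ∀ z ∈ V, A z ≤ (n : ℤ) - β := by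
    intro z hz
    have h1 := hV.rich z hz
    unfold Rich at h1
    have h2 : ENNReal.ofReal (θ * (2 : ℝ) ^ (A z + B z)) ≤ volume F :=
      h1.trans (measure_mono inter_subset_left)
    have h3 : θ * (2 : ℝ) ^ (A z + B z) ≤ (volume F).toReal :=
      (ENNReal.ofReal_le_iff_le_toReal hfin).1 h2
    have h4 : (2 : ℝ) ^ (A z + B z) < (2 : ℝ) ^ (n : ℤ) := by
      rw [zpow_natCast]
      refine lt_of_le_of_lt ?_ hn
      rw [le_div_iff₀ hθ]; linarith
    have h5 := (zpow_lt_zpow_iff_right₀ (one_lt_two (α := ℝ))).1 h4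
    rw [hB z hz] at h5
    linarith
  have key := hLMX s (fun k => k) (fun _ => β) (Iic ((n : ℤ) - β))
    (fun k => {z | z ∈ V ∧ k ≤ A z ∧ ¬ Rich F s k β (θ / 2) z})
    {z | z ∈ F ∧ z ∈ V ∧ z ∉ Ty F s θ V A B} V (ENNReal.ofReal (θ / 2)) (fun _ _ h => h)
    (fun _ _ _ => le_refl _) bddAbove_Iic ?_ ?_ ?_
  · refine key.trans ?_
    obtain ⟨-, -, -, hvol⟩ := hM F s θ V A B hF hV hθ
    calc ENNReal.ofReal (θ / 2) * volume (V ∩ ⋃ k ∈ Iic ((n : ℤ) - β),
          {z | z ∈ V ∧ k ≤ A z ∧ ¬ Rich F s k β (θ / 2) z})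
        ≤ ENNReal.ofReal (θ / 2) * volume V := by gcongr; exact inter_subset_left
      _ ≤ ENNReal.ofReal (θ / 2) * (ENNReal.ofReal (1 / θ) * volume (F ∩ V)) := by gcongr
      _ = ENNReal.ofReal (1 / 2) * volume (F ∩ V) := by
        rw [← mul_assoc, ← ENNReal.ofReal_mul (by positivity)]
        congr 2; field_simp
  · -- union of cells
    rintro k - y ⟨hyV, hky, hyR⟩ z' hz'
    have h1 : z' ∈ RQ s (A y) (B y) y := by
      rw [hB y hyV]; exact hnest s k β (A y) β y hky le_rfl hz'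
    obtain ⟨h2, h3, -⟩ := hV.inv y hyV z' h1
    refine ⟨h2, by rw [h3]; exact hky, ?_⟩
    rw [(hR F s k β (θ / 2)).2 y z' hz']
    exact hyR
  · -- covering
    rintro z ⟨hzF, hzV, hzT⟩
    have h1 : ∃ a ≤ A z, ¬ Rich F s a (B z) (θ / 2) z := by
      by_contra hcon
      push Not at hcon
      exact hzT ⟨hzF, hzV, hcon⟩
    obtain ⟨a, ha, hRa⟩ := h1
    rw [hB z hzV] at hRa
    simp only [mem_iUnion]
    exact ⟨a, le_trans ha (hA z hzV), hzV, ha, hRa⟩
  · -- density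
    rintro k - y ⟨hyV, hky, hyR⟩
    have hsub : RQ s k β y ⊆ V := by
      intro z' hz'
      have h1 : z' ∈ RQ s (A y) (B y) y := by
        rw [hB y hyV]; exact hnest s k β (A y) β y hky le_rfl hz'
      exact (hV.inv y hyV z' h1).1
    have h2 : V ∩ RQ s k β y = RQ s k β y := inter_eq_right.2 hsub
    show volume ({z | z ∈ {z | z ∈ F ∧ z ∈ V ∧ z ∉ Ty F s θ V A B} ∧
      ∀ k' ∈ Iic ((n : ℤ) - β), k < k' → z ∉ {z | z ∈ V ∧ k' ≤ A z ∧ ¬ Rich F s k' β (θ / 2) z}} ∩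
        RQ s k β y) ≤ ENNReal.ofReal (θ / 2) * volume (V ∩ RQ s k β y)
    rw [h2, (hcell s k β y).2.1, ← ENNReal.ofReal_mul (by positivity)]
    have h3 : volume (F ∩ RQ s k β y) ≤ ENNReal.ofReal (θ / 2 * (2 : ℝ) ^ (k + β)) := by
      unfold Rich at hyR
      exact (not_le.1 hyR).le
    refine le_trans (measure_mono ?_) h3
    rintro z ⟨⟨hz, -⟩, hz2⟩
    exact ⟨hz.1, hz2⟩

theorem hLTY (hLGR : StLGR) (hLMX : StLMX) (hLFM : StLFM) : StLTY := by
  intro F s θ V A B hF hfin hθ hV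
  set Vb : ℤ → Set Pl := fun β => {z | z ∈ V ∧ B z = β} with hVb
  have hFb : ∀ β, Fml F s θ (Vb β) A B := by
    intro β
    refine ⟨?_, ?_⟩
    · rintro z ⟨hz, hzβ⟩ z' hz'
      obtain ⟨h1, h2, h3⟩ := hV.inv z hz z' hz'
      exact ⟨⟨h1, by rw [h3, hzβ]⟩, h2, h3⟩
    · rintro z ⟨hz, -⟩
      exact hV.rich z hz
  have hTy : MeasurableSet (Ty F s θ V A B) := (hLFM.2 F s θ V A B hF hV hθ).2.2.1
  have hVbm : ∀ β, MeasurableSet (Vb β) := fun β => (hLFM.2 F s θ (Vb β) A B hF (hFb β) hθ).2.1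
  have hdisj : Pairwise (Function.onFun Disjoint Vb) := by
    intro i j hij
    rw [Function.onFun, Set.disjoint_left]
    rintro z ⟨-, h1⟩ ⟨-, h2⟩
    exact hij (h1.symm.trans h2)
  have hU : V = ⋃ β, Vb β := by
    ext z
    simp only [mem_iUnion, hVb]
    constructor
    · intro hz; exact ⟨B z, hz, rfl⟩
    · rintro ⟨β, hz, -⟩; exact hz
  have h1 : ∀ β, volume ((F ∩ Vb β) \ Ty F s θ V A B) ≤
      ENNReal.ofReal (1 / 2) * volume (F ∩ Vb β) := by
    intro β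
    have h2 := lty_one hLGR hLMX hLFM F s θ (Vb β) A B β hF hfin hθ (hFb β) (fun z hz => hz.2)
    refine le_trans (measure_mono ?_) h2
    rintro z ⟨⟨hzF, hzV⟩, hzT⟩
    refine ⟨hzF, hzV, ?_⟩
    intro hz
    exact hzT ⟨hz.1, hzV.1, hz.2.2⟩
  have h2 : volume ((F ∩ V) \ Ty F s θ V A B) ≤ ENNReal.ofReal (1 / 2) * volume (F ∩ V) := by
    have e1 : (F ∩ V) \ Ty F s θ V A B = ⋃ β, ((F ∩ Vb β) \ Ty F s θ V A B) := by
      rw [hU, inter_iUnion, iUnion_sdiff]
    have e2 : F ∩ V = ⋃ β, (F ∩ Vb β) := by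
      rw [hU, inter_iUnion]
    rw [e1]
    calc volume (⋃ β, ((F ∩ Vb β) \ Ty F s θ V A B))
        ≤ ∑' β, volume ((F ∩ Vb β) \ Ty F s θ V A B) := measure_iUnion_le _
      _ ≤ ∑' β, ENNReal.ofReal (1 / 2) * volume (F ∩ Vb β) := ENNReal.tsum_le_tsum h1
      _ = ENNReal.ofReal (1 / 2) * ∑' β, volume (F ∩ Vb β) := ENNReal.tsum_mul_left
      _ = ENNReal.ofReal (1 / 2) * volume (F ∩ V) := by
        rw [e2, measure_iUnion]
        · intro i j hij
          exact (hdisj hij).mono inter_subset_right inter_subset_right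
        · intro β; exact hF.inter (hVbm β)
  have hfin2 : volume (F ∩ V) ≠ ∞ := ne_top_of_le_ne_top hfin (measure_mono inter_subset_left)
  have h3 : volume (F ∩ V) ≤ volume (Ty F s θ V A B) + volume ((F ∩ V) \ Ty F s θ V A B) := by
    refine le_trans (measure_mono ?_) (measure_union_le _ _)
    intro z hz
    by_cases h : z ∈ Ty F s θ V A B
    · exact Or.inl h
    · exact Or.inr ⟨hz, h⟩
  have h4 : volume (F ∩ V) ≤ volume (Ty F s θ V A B) + ENNReal.ofReal (1 / 2) * volume (F ∩ V) :=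
    h3.trans (by gcongr)
  have hfin3 : volume (Ty F s θ V A B) ≠ ∞ := by
    refine ne_top_of_le_ne_top hfin (measure_mono ?_)
    intro z hz; exact hz.1
  have h5 : (volume (F ∩ V)).toReal ≤ (volume (Ty F s θ V A B)).toReal +
      1 / 2 * (volume (F ∩ V)).toReal := by
    have h6 := ENNReal.toReal_mono (by
      exact ENNReal.add_ne_top.2 ⟨hfin3, ENNReal.mul_ne_top ENNReal.ofReal_ne_top hfin2⟩) h4
    rw [ENNReal.toReal_add hfin3 (ENNReal.mul_ne_top ENNReal.ofReal_ne_top hfin2),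
      ENNReal.toReal_mul, ENNReal.toReal_ofReal (by norm_num)] at h6
    exact h6
  have h7 : (volume (F ∩ V)).toReal ≤ 2 * (volume (Ty F s θ V A B)).toReal := by linarith
  calc volume (F ∩ V) = ENNReal.ofReal (volume (F ∩ V)).toReal := (ENNReal.ofReal_toReal hfin2).symm
    _ ≤ ENNReal.ofReal (2 * (volume (Ty F s θ V A B)).toReal) := ENNReal.ofReal_le_ofReal h7
    _ = 2 * volume (Ty F s θ V A B) := by
      rw [ENNReal.ofReal_mul (by norm_num), ENNReal.ofReal_toReal hfin3]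
      norm_num

end Pool.Agent.Helper92.RL
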