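import Pool.Agent.Helper20.RL.St4

/-!
# Project RL (MP_cb927e_an), module PCI: the dual ridge theorem (trivial density)
-/

set_option autoImplicit false

open MeasureTheory Set Filter Topology
open scoped ENNReal RealInnerProductSpace

namespace Pool.Agent.Helper92.RL

open Pool.Agent.Helper68.LM (Pl BB Bd Av HL ft fm DQ)
open Pool.Agent.Helper20.RG Pool.Agent.Helper20.RL

theorem ns_ge_one' (u b : ℕ) (A σ : ℝ) (hA : 0 ≤ A) : 1 ≤ ns u b A σ := by
  unfold ns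
  have h1 : 0 ≤ ((2 : ℝ) ^ (b + 1) * u) ^ (-(1 / σ)) := Real.rpow_nonneg (by positivity) _
  have h2 : 0 ≤ (2 : ℝ) ^ u * (A * ((2 : ℝ) ^ (b + 1) * u) ^ (-(1 / σ))) := by positivity
  linarith

/-- the real number inequalities; `N = 2^u` -/
theorem pci_num (C₃ n u N D θ : ℝ) (hC : 1 ≤ C₃) (hn : 1 ≤ n) (hu : 1 ≤ u) (hN : 0 < N) (hD : 0 < D)
    (hθ : 0 < θ) :
    let m₀ := 137625600 * C₃ * (n + N * D / θ + u * Real.sqrt (n * (N * D)) / θ)
    1000 ≤ m₀ ∧ 200 * n ≤ m₀ ∧ 12800 * (10752 * N * D / θ) ≤ m₀ ∧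
      4 * (u * C₃ * n * (10752 * N * D / θ) * (84 / θ)) / m₀ ^ 2 ≤ 1 / 4 := by
  intro m₀
  set q := Real.sqrt (n * (N * D)) with hq
  have hnd : 0 < n * (N * D) := by positivity
  have hq0 : 0 < q := Real.sqrt_pos.2 hnd
  have hq2 : q ^ 2 = n * (N * D) := Real.sq_sqrt hnd.le
  have ha : 0 < N * D / θ := by positivity
  have hb : 0 < u * q / θ := by positivity
  have hm1 : 137625600 * (n + N * D / θ + u * q / θ) ≤ m₀ := by
    show 137625600 * (n + N * D / θ + u * q / θ) ≤ 137625600 * C₃ * (n + N * D / θ + u * q / θ)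
    have h0 : 0 < n + N * D / θ + u * q / θ := by positivity
    nlinarith
  have hm2 : 137625600 * C₃ * (u * q / θ) ≤ m₀ := by
    show 137625600 * C₃ * (u * q / θ) ≤ 137625600 * C₃ * (n + N * D / θ + u * q / θ)
    apply mul_le_mul_of_nonneg_left _ (by positivity)
    linarith
  have hm : 0 < m₀ := by linarith
  refine ⟨by linarith, by linarith, ?_, ?_⟩
  · have h6 : 12800 * (10752 * N * D / θ) = 137625600 * (N * D / θ) := by ring
    rw [h6]
    linarith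
  · have h8 : (137625600 * C₃ * (u * q / θ)) ^ 2 ≤ m₀ ^ 2 := by
      apply pow_le_pow_left₀ (by positivity) hm2
    rw [div_le_iff₀ (by positivity)]
    have h9 : (137625600 * C₃ * (u * q / θ)) ^ 2 =
        137625600 ^ 2 * C₃ ^ 2 * u ^ 2 * (n * (N * D) / θ ^ 2) := by
      rw [← hq2]; ring
    have h10 : 4 * (u * C₃ * n * (10752 * N * D / θ) * (84 / θ)) =
        3612672 * C₃ * u * (n * (N * D) / θ ^ 2) := by
      ring
    rw [h10]
    have h11 : 3612672 * C₃ * u * (n * (N * D) / θ ^ 2) ≤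
        1 / 4 * (137625600 ^ 2 * C₃ ^ 2 * u ^ 2 * (n * (N * D) / θ ^ 2)) := by
      have h12 : C₃ * u ≤ C₃ ^ 2 * u ^ 2 := by
        have : 1 ≤ C₃ * u := by nlinarith
        nlinarith
      have h14 : 0 ≤ n * (N * D) / θ ^ 2 := by positivity
      have h15 : C₃ * u * (n * (N * D) / θ ^ 2) ≤ C₃ ^ 2 * u ^ 2 * (n * (N * D) / θ ^ 2) :=
        mul_le_mul_of_nonneg_right h12 h14
      have h16 : 0 ≤ C₃ * u * (n * (N * D) / θ ^ 2) := by positivity
      nlinarith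
    calc _ ≤ _ := h11
      _ = 1 / 4 * (137625600 * C₃ * (u * q / θ)) ^ 2 := by rw [h9]
      _ ≤ 1 / 4 * m₀ ^ 2 := by gcongr

/-- the first error term -/
theorem pci_num2 (D θ : ℝ) (u : ℕ) (hu : 2 ≤ u) (hD : (2 : ℝ) ^ (-(6 * (u : ℤ))) ≤ D) (hθ : 0 < θ) :
    4 * ((2 ^ u : ℕ) : ℝ) * ((1 / 2) ^ (16 * u) / (10752 * 2 ^ u * D / θ) * (84 / θ)) ≤ 1 / 4 := by
  have hD0 : 0 < D := lt_of_lt_of_le (by positivity) hD
  have h1 : 4 * ((2 ^ u : ℕ) : ℝ) * ((1 / 2) ^ (16 * u) / (10752 * 2 ^ u * D / θ) * (84 / θ)) =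
      1 / 32 * ((1 / 2) ^ (16 * u) * (1 / D)) := by
    push_cast
    field_simp
    norm_num
  rw [h1]
  have h5 : 1 / D ≤ (2 : ℝ) ^ (6 * u) := by
    rw [div_le_iff₀ hD0]
    have h6 : (2 : ℝ) ^ (-(6 * (u : ℤ))) = 1 / (2 : ℝ) ^ (6 * u) := by
      rw [zpow_neg, one_div, show (6 * (u : ℤ)) = ((6 * u : ℕ) : ℤ) by push_cast; ring,
        zpow_natCast]
    rw [h6, div_le_iff₀ (by positivity)] at hD
    linarith
  have h7 : (1 / 2 : ℝ) ^ (16 * u) * (1 / D) ≤ 1 := by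
    calc (1 / 2 : ℝ) ^ (16 * u) * (1 / D) ≤ (1 / 2 : ℝ) ^ (16 * u) * (2 : ℝ) ^ (6 * u) := by gcongr
      _ ≤ (1 / 2 : ℝ) ^ (6 * u) * (2 : ℝ) ^ (6 * u) := by
        apply mul_le_mul_of_nonneg_right _ (by positivity)
        apply pow_le_pow_of_le_one (by norm_num) (by norm_num)
        omega
      _ = 1 := by rw [← mul_pow]; norm_num
  linarith

theorem hPCI (hLFM : StLFM) (hLTY : StLTY) (hPCB : StPCB) (hLCC : StLCC) : StPCI := by
  obtain ⟨C₃, hC, hB⟩ := hPCB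
  refine ⟨137625600 * C₃, by linarith, ?_⟩
  intro u b A σ s F D θ V Af Bf hu hb hA hs hF hctl hD hDθ hθ1 hV
  have hD0 : 0 < D := lt_of_lt_of_le (by positivity) hD
  have hθ : 0 < θ := by linarith
  have hfin : volume F ≠ ∞ := hF.2.measure_lt_top.ne
  set n := ns u b A σ with hn
  have hn1 : 1 ≤ n := ns_ge_one' u b A σ hA
  have hu1 : (1 : ℝ) ≤ u := by
    have : (2 : ℝ) ≤ u := by exact_mod_cast hu
    linarith
  obtain ⟨k1, k2, k3, k4⟩ := pci_num C₃ n u ((2 : ℝ) ^ u) D θ hC hn1 hu1 (by positivity) hD0 hθ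
  have k5 := pci_num2 D θ u hu hD hθ
  set m₀ := 137625600 * C₃ * (n + 2 ^ u * D / θ + u * Real.sqrt (n * (2 ^ u * D)) / θ) with hm₀
  have hM0 : M1 (137625600 * C₃) u b A σ D θ = m₀ := by
    rw [hm₀, hn]; rfl
  rw [hM0]
  set Z : ℕ → Set Pl := fun j => Ty F (s j) θ (V j) (Af j) (Bf j) with hZ
  set e₁ : ℝ := (1 / 2) ^ (16 * u) / (10752 * 2 ^ u * D / θ) * (84 / θ) with he₁
  set e₂ : ℝ := u * C₃ * n * (10752 * 2 ^ u * D / θ) * (84 / θ) with he₂
  have he1 : 0 ≤ e₁ := by positivity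
  have he2 : 0 ≤ e₂ := by positivity
  have hsum : ∑ j ∈ Finset.range (2 ^ u), volume (F ∩ V j) ≤
      2 * ∑ j ∈ Finset.range (2 ^ u), volume (Z j) := by
    rw [Finset.mul_sum]
    apply Finset.sum_le_sum
    intro j hj
    exact hLTY F (s j) θ (V j) (Af j) (Bf j) hF.1 hfin hθ (hV j (Finset.mem_range.1 hj)).1
  have hmain := hLCC (2 ^ u) F Z m₀ e₁ e₂ hF.1 hfin ?_ (by linarith) he1 he2 ?_ ?_
  · calc ∑ j ∈ Finset.range (2 ^ u), volume (F ∩ V j)
        ≤ 2 * ∑ j ∈ Finset.range (2 ^ u), volume (Z j) := hsum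
      _ ≤ 2 * (ENNReal.ofReal (2 * m₀) * volume F) := by gcongr
      _ = ENNReal.ofReal (4 * m₀) * volume F := by
        rw [← mul_assoc]
        congr 1
        rw [show (2 : ℝ≥0∞) = ENNReal.ofReal 2 by norm_num, ← ENNReal.ofReal_mul (by norm_num)]
        congr 1; ring
  · intro j hj
    exact ⟨(hLFM.2 F (s j) θ (V j) (Af j) (Bf j) hF.1 (hV j hj).1 hθ).2.2.1, fun z hz => hz.1⟩
  · have h1 : 4 * e₂ / m₀ ^ 2 ≤ 1 / 4 := k4
    have h2 : 4 * ((2 ^ u : ℕ) : ℝ) * e₁ ≤ 1 / 4 := k5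
    linarith
  · intro m hm
    have h1 := hB u b A σ s F D θ m V Af Bf hu hb hA hs hF hctl hD0 hDθ hV (by linarith)
      (by rw [← hn]; linarith) (by linarith)
    rw [← hn] at h1
    refine h1.trans ?_
    have hm0 : 0 < m := by linarith
    calc ENNReal.ofReal (((1 / 2) ^ (16 * u) / (10752 * 2 ^ u * D / θ) +
          u * C₃ * n * (10752 * 2 ^ u * D / θ) / m ^ 3) * (42 / θ)) *
          ∑ j ∈ Finset.range (2 ^ u), volume (F ∩ V j)
        ≤ ENNReal.ofReal (((1 / 2) ^ (16 * u) / (10752 * 2 ^ u * D / θ) +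
          u * C₃ * n * (10752 * 2 ^ u * D / θ) / m ^ 3) * (42 / θ)) *
          (2 * ∑ j ∈ Finset.range (2 ^ u), volume (Z j)) := by gcongr
      _ = ENNReal.ofReal (e₁ + e₂ / m ^ 3) * ∑ j ∈ Finset.range (2 ^ u), volume (Z j) := by
        rw [← mul_assoc]
        congr 1
        rw [show (2 : ℝ≥0∞) = ENNReal.ofReal 2 by norm_num, ← ENNReal.ofReal_mul (by positivity)]
        congr 1
        rw [he₁, he₂]
        ring

end Pool.Agent.Helper92.RL
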