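import Pool.Agent.Helper20.RL.St2

/-!
# Project RL (MP_cb927e_an), module LCI: the dual ridge theorem
-/

set_option autoImplicit false

open MeasureTheory Set Filter Topology
open scoped ENNReal RealInnerProductSpace

namespace Pool.Agent.Helper92.RL

open Pool.Agent.Helper68.LM (Pl BB Bd Av HL ft fm DQ)
open Pool.Agent.Helper20.RG Pool.Agent.Helper20.RL

theorem ns_ge_one (u b : ℕ) (A σ : ℝ) (hA : 0 ≤ A) : 1 ≤ ns u b A σ := by
  unfold ns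
  have h1 : 0 ≤ ((2 : ℝ) ^ (b + 1) * u) ^ (-(1 / σ)) := Real.rpow_nonneg (by positivity) _
  have h2 : 0 ≤ (2 : ℝ) ^ u * (A * ((2 : ℝ) ^ (b + 1) * u) ^ (-(1 / σ))) := by positivity
  linarith

/-- the real number inequalities; `q = √(D/θ³)` -/
theorem lci_num (C₃ n u D θ : ℝ) (hC : 1 ≤ C₃) (hn : 1 ≤ n) (hu : 1 ≤ u) (hD : 0 < D)
    (hDθ : 1000 * D ≤ θ) :
    let m₀ := 12800 * C₃ * n * (1 + u * Real.sqrt (D / θ ^ 3))
    1000 ≤ m₀ ∧ 200 * n ≤ m₀ ∧ 12800 * (C₃ * n * D / θ ^ 2) ≤ m₀ ∧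
      4 * (u * C₃ * n * (C₃ * n * D / θ ^ 2) * (36 / θ)) / m₀ ^ 2 ≤ 1 / 4 := by
  intro m₀
  have hθ : 0 < θ := by linarith
  set q := Real.sqrt (D / θ ^ 3) with hq
  have hq0 : 0 < q := by
    rw [hq]; exact Real.sqrt_pos.2 (by positivity)
  have hq2 : q ^ 2 = D / θ ^ 3 := by
    rw [hq]; exact Real.sq_sqrt (by positivity)
  have hX : 0 ≤ u * q := by positivity
  have hK : 0 < 12800 * C₃ * n := by positivity
  have hCn : 1 ≤ C₃ * n := by nlinarith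
  have h1 : 12800 * C₃ * n ≤ m₀ := by
    show 12800 * C₃ * n ≤ 12800 * C₃ * n * (1 + u * q)
    nlinarith
  have hDq : D / θ ^ 2 ≤ q := by
    rw [hq]
    apply Real.le_sqrt_of_sq_le
    rw [div_pow, div_le_div_iff₀ (by positivity) (by positivity)]
    have h5 : D ≤ θ := by linarith
    have : D ^ 2 * θ ^ 3 ≤ D * θ * θ ^ 3 := by
      have : D ^ 2 ≤ D * θ := by nlinarith
      exact mul_le_mul_of_nonneg_right this (by positivity)
    calc D ^ 2 * θ ^ 3 ≤ D * θ * θ ^ 3 := this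
      _ = D * (θ ^ 2) ^ 2 := by ring
  refine ⟨by nlinarith, by nlinarith, ?_, ?_⟩
  · have h6 : 12800 * (C₃ * n * D / θ ^ 2) = 12800 * C₃ * n * (D / θ ^ 2) := by ring
    rw [h6]
    show 12800 * C₃ * n * (D / θ ^ 2) ≤ 12800 * C₃ * n * (1 + u * q)
    apply mul_le_mul_of_nonneg_left _ hK.le
    nlinarith
  · have h7 : 12800 * C₃ * n * (u * q) ≤ m₀ := by
      show 12800 * C₃ * n * (u * q) ≤ 12800 * C₃ * n * (1 + u * q)
      nlinarith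
    have h8 : (12800 * C₃ * n * (u * q)) ^ 2 ≤ m₀ ^ 2 := by
      apply pow_le_pow_left₀ (by positivity) h7
    have hm : 0 < m₀ := by linarith
    rw [div_le_iff₀ (by positivity)]
    have h9 : (12800 * C₃ * n * (u * q)) ^ 2 = 12800 ^ 2 * C₃ ^ 2 * n ^ 2 * u ^ 2 * (D / θ ^ 3) := by
      rw [← hq2]; ring
    have h10 : 4 * (u * C₃ * n * (C₃ * n * D / θ ^ 2) * (36 / θ)) =
        144 * C₃ ^ 2 * n ^ 2 * u * (D / θ ^ 3) := by
      field_simp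
      norm_num
    rw [h10]
    have h11 : 144 * C₃ ^ 2 * n ^ 2 * u * (D / θ ^ 3) ≤
        1 / 4 * (12800 ^ 2 * C₃ ^ 2 * n ^ 2 * u ^ 2 * (D / θ ^ 3)) := by
      have h12 : u ≤ u ^ 2 := by nlinarith
      have h13 : 144 * C₃ ^ 2 * n ^ 2 * u * (D / θ ^ 3) ≤ 144 * C₃ ^ 2 * n ^ 2 * u ^ 2 * (D / θ ^ 3) := by
        gcongr
      refine h13.trans ?_
      have h14 : 0 ≤ C₃ ^ 2 * n ^ 2 * u ^ 2 * (D / θ ^ 3) := by positivity
      nlinarith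
    calc _ ≤ _ := h11
      _ = 1 / 4 * (12800 * C₃ * n * (u * q)) ^ 2 := by rw [h9]
      _ ≤ 1 / 4 * m₀ ^ 2 := by gcongr

/-- the first error term -/
theorem lci_num2 (C₃ n D θ : ℝ) (u : ℕ) (hC : 1 ≤ C₃) (hn : 1 ≤ n) (hu : 2 ≤ u)
    (hD : (2 : ℝ) ^ (-(6 * (u : ℤ))) ≤ D) (hDθ : 1000 * D ≤ θ) (hθ1 : θ ≤ 1) :
    4 * ((2 ^ u : ℕ) : ℝ) * ((1 / 2) ^ (16 * u) / (C₃ * n * D / θ ^ 2) * (36 / θ)) ≤ 1 / 4 := by
  have hD0 : 0 < D := lt_of_lt_of_le (by positivity) hD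
  have hθ : 0 < θ := by linarith
  have hCn : 1 ≤ C₃ * n := by nlinarith
  have h1 : (1 / 2 : ℝ) ^ (16 * u) / (C₃ * n * D / θ ^ 2) * (36 / θ) =
      36 * (1 / 2) ^ (16 * u) * θ / (C₃ * n * D) := by
    field_simp
  rw [h1]
  have h2 : 36 * (1 / 2) ^ (16 * u) * θ / (C₃ * n * D) ≤ 36 * (1 / 2) ^ (16 * u) / D := by
    rw [div_le_div_iff₀ (by positivity) hD0]
    have h3 : θ * D ≤ C₃ * n * D := by
      apply mul_le_mul_of_nonneg_right _ hD0.le; linarith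
    have h4 : 0 ≤ 36 * (1 / 2 : ℝ) ^ (16 * u) := by positivity
    calc 36 * (1 / 2) ^ (16 * u) * θ * D = 36 * (1 / 2) ^ (16 * u) * (θ * D) := by ring
      _ ≤ 36 * (1 / 2) ^ (16 * u) * (C₃ * n * D) := mul_le_mul_of_nonneg_left h3 h4
  have h5 : 1 / D ≤ (2 : ℝ) ^ (6 * u) := by
    rw [div_le_iff₀ hD0]
    have h6 : (2 : ℝ) ^ (-(6 * (u : ℤ))) = 1 / (2 : ℝ) ^ (6 * u) := by
      rw [zpow_neg, one_div, show (6 * (u : ℤ)) = ((6 * u : ℕ) : ℤ) by push_cast; ring,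
        zpow_natCast]
    rw [h6, div_le_iff₀ (by positivity)] at hD
    linarith
  have h7 : 36 * (1 / 2 : ℝ) ^ (16 * u) / D ≤ 36 * (1 / 2 : ℝ) ^ (16 * u) * (2 : ℝ) ^ (6 * u) := by
    rw [div_eq_mul_one_div (36 * (1 / 2 : ℝ) ^ (16 * u)) D]
    gcongr
  have h8 : 4 * ((2 ^ u : ℕ) : ℝ) * (36 * (1 / 2 : ℝ) ^ (16 * u) * (2 : ℝ) ^ (6 * u)) =
      144 * (1 / 2 : ℝ) ^ (9 * u) := by
    push_cast
    rw [one_div, inv_pow, inv_pow]
    have e1 : (2 : ℝ) ^ (16 * u) = 2 ^ (9 * u) * 2 ^ (6 * u) * 2 ^ u := by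
      rw [← pow_add, ← pow_add]; congr 1; ring
    rw [e1]
    have e2 : (2 : ℝ) ^ (9 * u) ≠ 0 := by positivity
    have e3 : (2 : ℝ) ^ (6 * u) ≠ 0 := by positivity
    have e4 : (2 : ℝ) ^ u ≠ 0 := by positivity
    field_simp
    norm_num
  calc 4 * ((2 ^ u : ℕ) : ℝ) * (36 * (1 / 2) ^ (16 * u) * θ / (C₃ * n * D))
      ≤ 4 * ((2 ^ u : ℕ) : ℝ) * (36 * (1 / 2 : ℝ) ^ (16 * u) * (2 : ℝ) ^ (6 * u)) := by
        apply mul_le_mul_of_nonneg_left (h2.trans h7) (by positivity)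
    _ = 144 * (1 / 2 : ℝ) ^ (9 * u) := h8
    _ ≤ 144 * (1 / 2 : ℝ) ^ 18 := by
        apply mul_le_mul_of_nonneg_left _ (by norm_num)
        apply pow_le_pow_of_le_one (by norm_num) (by norm_num)
        omega
    _ ≤ 1 / 4 := by norm_num

theorem hLCI (hLFM : StLFM) (hLTY : StLTY) (hLCB : StLCB) (hLCC : StLCC) : StLCI := by
  obtain ⟨C₃, hC, hB⟩ := hLCB
  refine ⟨12800 * C₃, by linarith, ?_⟩
  intro u b A σ s F D θ V Af Bf hu hb hA hs hF hctl hD hDθ hθ1 hV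
  have hD0 : 0 < D := lt_of_lt_of_le (by positivity) hD
  have hθ : 0 < θ := by linarith
  have hfin : volume F ≠ ∞ := hF.2.measure_lt_top.ne
  set n := ns u b A σ with hn
  have hn1 : 1 ≤ n := ns_ge_one u b A σ hA
  have hu1 : (1 : ℝ) ≤ u := by
    have : (2 : ℝ) ≤ u := by exact_mod_cast hu
    linarith
  obtain ⟨k1, k2, k3, k4⟩ := lci_num C₃ n u D θ hC hn1 hu1 hD0 hDθ
  have k5 := lci_num2 C₃ n D θ u hC hn1 hu hD hDθ hθ1
  set m₀ := 12800 * C₃ * n * (1 + u * Real.sqrt (D / θ ^ 3)) with hm₀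
  have hM0 : M0 (12800 * C₃) u b A σ D θ = m₀ := by
    rw [hm₀, hn]; rfl
  rw [hM0]
  set Z : ℕ → Set Pl := fun j => Ty F (s j) θ (V j) (Af j) (Bf j) with hZ
  set e₁ : ℝ := (1 / 2) ^ (16 * u) / (C₃ * n * D / θ ^ 2) * (36 / θ) with he₁
  set e₂ : ℝ := u * C₃ * n * (C₃ * n * D / θ ^ 2) * (36 / θ) with he₂
  have he1 : 0 ≤ e₁ := by positivity
  have he2 : 0 ≤ e₂ := by positivity
  have hsum : ∑ j ∈ Finset.range (2 ^ u), volume (F ∩ V j) ≤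
      2 * ∑ j ∈ Finset.range (2 ^ u), volume (Z j) := by
    rw [Finset.mul_sum]
    apply Finset.sum_le_sum
    intro j hj
    exact hLTY F (s j) θ (V j) (Af j) (Bf j) hF.1 hfin hθ (hV j (Finset.mem_range.1 hj)).1
  have hmain := hLCC (2 ^ u) F Z m₀ e₁ e₂ hF.1 hfin ?_ (by linarith) he1 he2 ?_ ?_
  · calc ∑ j ∈ Finset.range (2 ^ u), volume (F ∩ V j)
        ≤ 2 * ∑ j ∈ Finset.range (2 ^ u), volume (Z j) := hsum
      _ ≤ 2 * (ENNReal.ofReal (2 * m₀) * volume F) := by gcongr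
      _ = ENNReal.ofReal (4 * m₀) * volume F := by
        rw [← mul_assoc]
        congr 1
        rw [show (2 : ℝ≥0∞) = ENNReal.ofReal 2 by norm_num, ← ENNReal.ofReal_mul (by norm_num)]
        congr 1; ring
  · intro j hj
    exact ⟨(hLFM.2 F (s j) θ (V j) (Af j) (Bf j) hF.1 (hV j hj).1 hθ).2.2.1, fun z hz => hz.1⟩
  · have : 4 * e₂ / m₀ ^ 2 ≤ 1 / 4 := k4
    linarith
  · intro m hm
    have h1 := hB u b A σ s F D θ m V Af Bf hu hb hA hs hF hctl hD0 hDθ hθ1 hV (by linarith)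
      (by rw [← hn]; linarith) (by rw [← hn]; linarith)
    rw [← hn] at h1
    refine h1.trans ?_
    have hm0 : 0 < m := by linarith
    calc ENNReal.ofReal (((1 / 2) ^ (16 * u) / (C₃ * n * D / θ ^ 2) +
          u * C₃ * n * (C₃ * n * D / θ ^ 2) / m ^ 3) * (18 / θ)) *
          ∑ j ∈ Finset.range (2 ^ u), volume (F ∩ V j)
        ≤ ENNReal.ofReal (((1 / 2) ^ (16 * u) / (C₃ * n * D / θ ^ 2) +
          u * C₃ * n * (C₃ * n * D / θ ^ 2) / m ^ 3) * (18 / θ)) *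
          (2 * ∑ j ∈ Finset.range (2 ^ u), volume (Z j)) := by gcongr
      _ = ENNReal.ofReal (e₁ + e₂ / m ^ 3) * ∑ j ∈ Finset.range (2 ^ u), volume (Z j) := by
        rw [← mul_assoc]
        congr 1
        rw [show (2 : ℝ≥0∞) = ENNReal.ofReal 2 by norm_num, ← ENNReal.ofReal_mul (by positivity)]
        congr 1
        rw [he₁, he₂]
        ring

end Pool.Agent.Helper92.RL
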